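import Pool.Agent.TH826.MK.Exact
set_option autoImplicit false

/-!
Branches of the inverse of a polynomial with simple roots, near a root.
-/

namespace Pool.Agent.TH826.MH

open Filter Topology

/-- an analytic function on the disc of radius `δ`, with bounded logarithm and logarithmic
derivative -/
def Nice (δ C : ℝ) (g : ℂ → ℂ) : Prop :=
  ∀ w, ‖w‖ < δ → AnalyticAt ℂ g w ∧ g w ≠ 0 ∧ |Real.log ‖g w‖| ≤ C ∧ ‖deriv g w / g w‖ ≤ C

theorem exists_nice {g : ℂ → ℂ} (hg : AnalyticAt ℂ g 0) (h0 : g 0 ≠ 0) :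
    ∃ C : ℝ, ∀ᶠ w in 𝓝 (0 : ℂ), AnalyticAt ℂ g w ∧ g w ≠ 0 ∧ |Real.log ‖g w‖| ≤ C ∧
      ‖deriv g w / g w‖ ≤ C := by
  have c1 : ContinuousAt (fun w => |Real.log ‖g w‖|) 0 :=
    ((hg.continuousAt.norm).log (norm_ne_zero_iff.2 h0)).abs
  have c2 : ContinuousAt (fun w => ‖deriv g w / g w‖) 0 :=
    (hg.deriv.continuousAt.div hg.continuousAt h0).norm
  refine ⟨max (|Real.log ‖g 0‖| + 1) (‖deriv g 0 / g 0‖ + 1), ?_⟩
  have e1 := c1.eventually_lt continuousAt_const (lt_add_one (|Real.log ‖g 0‖|))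
  have e2 := c2.eventually_lt continuousAt_const (lt_add_one (‖deriv g 0 / g 0‖))
  filter_upwards [hg.eventually_analyticAt, hg.continuousAt.eventually_ne h0, e1, e2] with w a1 a2
    a3 a4
  exact ⟨a1, a2, a3.le.trans (le_max_left _ _), a4.le.trans (le_max_right _ _)⟩

theorem exists_branch {n : ℕ} (α : Fin (n + 1) → ℂ) (hα : Function.Injective α)
    (t : Fin (n + 1)) : ∃ (G : ℂ → ℂ) (g : Fin (n + 1) → ℂ → ℂ) (δ C : ℝ), 0 < δ ∧
      (∀ w, ‖w‖ < δ → AnalyticAt ℂ G w ∧ ∏ i, (G w - α i) = w ∧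
        ∀ i, G w - α i = (if i = t then w else 1) * g i w) ∧ ∀ i, Nice δ C (g i) := by
  set p : ℂ → ℂ := fun x => ∏ i, (x - α i) with hp
  have hpa : AnalyticAt ℂ p (α t) := by
    have : AnalyticAt ℂ (fun x => ∏ i ∈ Finset.univ, (x - α i)) (α t) :=
      Finset.analyticAt_fun_prod Finset.univ fun i _ => analyticAt_id.sub analyticAt_const
    exact this
  have hp0 : p (α t) = 0 := Finset.prod_eq_zero (Finset.mem_univ t) (sub_self _)
  have hsplit : ∀ x, p x = (x - α t) * ∏ i ∈ Finset.univ.erase t, (x - α i) := fun x =>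
    (Finset.mul_prod_erase _ _ (Finset.mem_univ t)).symm
  have hne : ∏ i ∈ Finset.univ.erase t, (α t - α i) ≠ 0 :=
    Finset.prod_ne_zero_iff.2 fun i hi => sub_ne_zero.2 fun e =>
      (Finset.ne_of_mem_erase hi) (hα e).symm
  have hpd : deriv p (α t) ≠ 0 := by
    have e : p = fun x => (x - α t) * ∏ i ∈ Finset.univ.erase t, (x - α i) := funext hsplit
    have hq : DifferentiableAt ℂ (fun x => ∏ i ∈ Finset.univ.erase t, (x - α i)) (α t) := by
      have : AnalyticAt ℂ (fun x => ∏ i ∈ Finset.univ.erase t, (x - α i)) (α t) :=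
        Finset.analyticAt_fun_prod _ fun i _ => analyticAt_id.sub analyticAt_const
      exact this.differentiableAt
    have h1 : HasDerivAt (fun x => (x - α t) * ∏ i ∈ Finset.univ.erase t, (x - α i))
        (1 * (∏ i ∈ Finset.univ.erase t, (α t - α i)) + (α t - α t) *
          deriv (fun x => ∏ i ∈ Finset.univ.erase t, (x - α i)) (α t)) (α t) :=
      ((hasDerivAt_id (α t)).sub_const (α t)).mul hq.hasDerivAt
    rw [e, h1.deriv, sub_self, zero_mul, add_zero, one_mul]
    exact hne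
  set G : ℂ → ℂ := hpa.hasStrictDerivAt.localInverse _ _ _ hpd with hG
  have hGa : AnalyticAt ℂ G 0 := by
    have := hpa.analyticAt_localInverse hpd
    rwa [hp0] at this
  have hG0 : G 0 = α t := by
    have : G (p (α t)) = α t := HasStrictFDerivAt.localInverse_apply_image ..
    rwa [hp0] at this
  have hGr : ∀ᶠ w in 𝓝 (0 : ℂ), p (G w) = w := by
    have := hpa.hasStrictDerivAt.eventually_right_inverse hpd
    rwa [hp0] at this
  set g : Fin (n + 1) → ℂ → ℂ := fun i w =>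
    if i = t then (∏ j ∈ Finset.univ.erase t, (G w - α j))⁻¹ else G w - α i with hg
  have hga : ∀ i, AnalyticAt ℂ (g i) 0 ∧ g i 0 ≠ 0 := by
    intro i
    by_cases h : i = t
    · simp only [hg, h, if_true]
      have h1 : AnalyticAt ℂ (fun w => ∏ j ∈ Finset.univ.erase t, (G w - α j)) 0 :=
        Finset.analyticAt_fun_prod _ fun j _ => hGa.sub analyticAt_const
      have h2 : ∏ j ∈ Finset.univ.erase t, (G 0 - α j) ≠ 0 := by
        rw [hG0]
        exact hne
      exact ⟨h1.inv h2, inv_ne_zero h2⟩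
    · simp only [hg, h, if_false]
      refine ⟨hGa.sub analyticAt_const, ?_⟩
      rw [hG0, sub_ne_zero]
      exact fun e => h (hα e).symm
  choose C hC using fun i => exists_nice (hga i).1 (hga i).2
  have hall := (hGa.eventually_analyticAt.and (hGr.and
    ((eventually_all.2 hC))))
  have hne2 : ∀ᶠ w in 𝓝 (0 : ℂ), ∏ j ∈ Finset.univ.erase t, (G w - α j) ≠ 0 := by
    have h1 : AnalyticAt ℂ (fun w => ∏ j ∈ Finset.univ.erase t, (G w - α j)) 0 :=
      Finset.analyticAt_fun_prod _ fun j _ => hGa.sub analyticAt_const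
    have h2 : ∏ j ∈ Finset.univ.erase t, (G 0 - α j) ≠ 0 := by
      rw [hG0]
      exact hne
    exact h1.continuousAt.eventually_ne h2
  obtain ⟨δ, hδ, hball⟩ := Metric.eventually_nhds_iff.1 (hall.and hne2)
  have hCle : ∀ i, C i ≤ ∑ j, |C j| := fun i =>
    (le_abs_self _).trans (Finset.single_le_sum (f := fun j => |C j|)
      (fun j _ => abs_nonneg _) (Finset.mem_univ i))
  refine ⟨G, g, δ, ∑ j, |C j|, hδ, fun w hw => ?_, fun i w hw => ?_⟩
  · obtain ⟨⟨h1, h2, h3⟩, h4⟩ := hball (y := w) (by rwa [dist_zero_right])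
    refine ⟨h1, h2, fun i => ?_⟩
    by_cases h : i = t
    · simp only [hg, h, if_true]
      rw [eq_mul_inv_iff_mul_eq₀ h4, ← hsplit]
      exact h2
    · simp only [hg, h, if_false, one_mul]
  · obtain ⟨⟨h1, h2, h3⟩, h4⟩ := hball (y := w) (by rwa [dist_zero_right])
    obtain ⟨a1, a2, a3, a4⟩ := h3 i
    exact ⟨a1, a2, a3.trans (hCle i), a4.trans (hCle i)⟩

end Pool.Agent.TH826.MH
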