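import Pool.Agent.TH826.MK.Eval
import Pool.Agent.TH826.MH.Branch
set_option autoImplicit false

/-!
Uniform bounds for the regulator integrals near the degenerate fibre.
-/

namespace Pool.Agent.TH826.MH

open MeasureTheory Set

open Pool.Agent.TH826.MK (Good Per One vf lw grow pairing tl)

variable {d : ℕ}

theorem continuous_lw {g : (Fin d → ℝ) → ℂ} (hg : Good g) (j : Fin d) :
    Continuous fun θ => lw g j θ := by
  unfold lw
  refine Continuous.div ?_ hg.smooth.continuous hg.ne_zero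
  exact (hg.smooth.continuous_fderiv (by norm_num)).clm_apply continuous_const

theorem exists_bound_grow {g : (Fin d → ℝ) → ℂ} (hg : Good g) :
    ∃ B : ℝ, ∀ y ∈ Icc (0 : Fin (d + 1) → ℝ) 1, ∀ j, ‖grow g y j‖ ≤ B := by
  obtain ⟨B, hB⟩ := (isCompact_Icc (a := (0 : Fin (d + 1) → ℝ)) (b := 1)).exists_bound_of_continuousOn
    (Pool.Agent.TH826.MK.continuous_grow hg).continuousOn
  exact ⟨B, fun y hy j => (norm_le_pi_norm (grow g y) j).trans (hB y hy)⟩

theorem exists_bound_lw {g : (Fin d → ℝ) → ℂ} (hg : Good g) :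
    ∃ B : ℝ, 0 ≤ B ∧ ∀ y ∈ Icc (0 : Fin (d + 1) → ℝ) 1, ∀ j, ‖lw g j (tl d y)‖ ≤ B := by
  have h : Continuous fun y : Fin (d + 1) → ℝ => fun j => lw g j (tl d y) :=
    continuous_pi fun j => (continuous_lw hg j).comp (tl d).continuous
  obtain ⟨B, hB⟩ := (isCompact_Icc (a := (0 : Fin (d + 1) → ℝ)) (b := 1)).exists_bound_of_continuousOn
    h.continuousOn
  refine ⟨max B 0, le_max_right _ _, fun y hy j => ?_⟩
  exact ((norm_le_pi_norm (fun j => lw g j (tl d y)) j).trans (hB y hy)).trans (le_max_left _ _)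

section comp

variable {F : (Fin d → ℝ) → ℂ} {l : ℂ} {δ C : ℝ} {g : ℂ → ℂ}

theorem good_w (hF : Good F) (hl : l ≠ 0) : Good fun θ => (l * F θ)⁻¹ :=
  ⟨(contDiff_const.mul hF.smooth).inv fun θ => mul_ne_zero hl (hF.ne_zero θ),
    fun θ => inv_ne_zero (mul_ne_zero hl (hF.ne_zero θ))⟩

theorem good_comp (hF : Good F) (hl : l ≠ 0) (hw : ∀ θ, ‖(l * F θ)⁻¹‖ < δ) (hg : Nice δ C g) :
    Good fun θ => g (l * F θ)⁻¹ := by
  refine ⟨?_, fun θ => (hg _ (hw θ)).2.1⟩
  rw [contDiff_iff_contDiffAt]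
  intro θ
  exact (((hg _ (hw θ)).1.contDiffAt (n := 2)).restrict_scalars ℝ).comp θ
    (good_w hF hl).smooth.contDiffAt

theorem lw_w (hF : Good F) (hl : l ≠ 0) (j : Fin d) (θ : Fin d → ℝ) :
    lw (fun θ => (l * F θ)⁻¹) j θ = - lw F j θ := by
  have h1 := Pool.Agent.TH826.MK.lw_mul (good_w hF hl) hF j θ
  have e : (fun θ => (l * F θ)⁻¹ * F θ) = fun _ => l⁻¹ := by
    funext θ
    have := hF.ne_zero θ
    field_simp
  rw [e, Pool.Agent.TH826.MK.lw_const] at h1
  linear_combination -h1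

theorem lw_comp (hF : Good F) (hl : l ≠ 0) (hw : ∀ θ, ‖(l * F θ)⁻¹‖ < δ) (hg : Nice δ C g)
    (j : Fin d) (θ : Fin d → ℝ) : lw (fun θ => g (l * F θ)⁻¹) j θ =
      - (deriv g (l * F θ)⁻¹ / g (l * F θ)⁻¹ * (l * F θ)⁻¹ * lw F j θ) := by
  have h0 := lw_w hF hl j θ
  have hgood := good_w hF hl
  have h1 : HasFDerivAt (fun θ => (l * F θ)⁻¹) (fderiv ℝ (fun θ => (l * F θ)⁻¹) θ) θ :=
    ((hgood.smooth.differentiable (by norm_num)) θ).hasFDerivAt
  have h2 := (hg _ (hw θ)).1.differentiableAt.hasDerivAt.comp_hasFDerivAt θ h1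
  have h3 : fderiv ℝ (fun θ => g (l * F θ)⁻¹) θ = _ := h2.fderiv
  have h4 := (hg _ (hw θ)).2.1
  have h5 := hgood.ne_zero θ
  have h6 : (fderiv ℝ (fun θ => (l * F θ)⁻¹) θ) (Pi.single j 1) = - lw F j θ * (l * F θ)⁻¹ := by
    rw [← h0]
    unfold lw
    rw [div_mul_cancel₀ _ h5]
  unfold lw
  rw [h3]
  simp only [smul_apply, smul_eq_mul]
  rw [h6]
  unfold lw
  ring

/-- a uniform bound for the regulator integral of a function that extends to the degenerate
fibre -/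
theorem exists_bound_pairing (hF : Good F) {V : Fin d → ℝ → ℂ} {v : Fin d → ℝ}
    (hV : ∀ k, One (V k) (v k)) (δ C : ℝ) (hδ : 0 < δ) :
    ∃ B : ℝ, ∀ (l : ℂ) (g : ℂ → ℂ), l ≠ 0 → (∀ θ, ‖(l * F θ)⁻¹‖ < δ) → Nice δ C g →
      |pairing (Fin.cons (fun θ => g (l * F θ)⁻¹) (vf V))| ≤ B := by
  choose B hB using fun k => exists_bound_grow ((hV k).good k)
  obtain ⟨A, hA0, hA⟩ := exists_bound_lw hF
  refine ⟨(d + 1).factorial * ((|C| + 2 * (|C| * δ * A)) * ∏ k, B k), ?_⟩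
  intro l g hl hw hg
  refine Pool.Agent.TH826.MK.abs_pairing_le (fun y hy j => ?_) (fun k y hy j => hB k y hy j)
  have hC : 0 ≤ |C| * δ * A := by positivity
  refine Pool.Agent.TH826.MK.norm_grow_le hy ?_ (fun j => ?_) j
  · have h1 := (hg _ (hw (tl d y))).2.2.1
    have h2 := le_abs_self C
    linarith
  · have h1 : ‖lw (fun θ => g (l * F θ)⁻¹) j (tl d y)‖ ≤ |C| * δ * A := by
      rw [lw_comp hF hl hw hg, norm_neg, norm_mul, norm_mul]
      have h2 := ((hg _ (hw (tl d y))).2.2.2).trans (le_abs_self C)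
      have h3 := (hw (tl d y)).le
      exact mul_le_mul (mul_le_mul h2 h3 (norm_nonneg _) (abs_nonneg _)) (hA y hy j)
        (norm_nonneg _) (by positivity)
    have h2 := abs_nonneg C
    linarith

end comp

section eval

variable {F : (Fin d → ℝ) → ℂ} {l : ℂ} {V : Fin d → ℝ → ℂ} {v : Fin d → ℝ}

open Pool.Agent.TH826.MK in
theorem pairing_w (hF : Good F) (hl : l ≠ 0) (hV : ∀ k, One (V k) (v k)) :
    pairing (Fin.cons (fun θ => (l * F θ)⁻¹) (vf V)) =
      - ((2 * Real.pi) ^ d * Real.log ‖l‖ * ∏ k, v k) - pairing (Fin.cons F (vf V)) := by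
  have hv : ∀ k, Good (vf V k) := fun k => (hV k).good k
  have h1 := pairing_cons_mul (good_w hF hl) ((good_const hl).mul hF) hv
  have e : (fun θ => (l * F θ)⁻¹ * (l * F θ)) = fun _ => 1 := by
    funext θ
    exact inv_mul_cancel₀ (mul_ne_zero hl (hF.ne_zero θ))
  rw [e, pairing_one hV, pairing_cons_mul (good_const hl) hF hv, pairing_const _ _ _ hV] at h1
  linarith

open Pool.Agent.TH826.MK in
theorem pairing_cons_div0 {f g : (Fin d → ℝ) → ℂ} (hf : Good f) (hg : Good g)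
    (hV : ∀ k, One (V k) (v k)) :
    pairing (Fin.cons (fun θ => f θ / g θ) (vf V)) =
      pairing (Fin.cons f (vf V)) - pairing (Fin.cons g (vf V)) := by
  have hv : ∀ k, Good (vf V k) := fun k => (hV k).good k
  have hq : Good fun θ => f θ / g θ := by
    refine ⟨?_, fun θ => div_ne_zero (hf.ne_zero θ) (hg.ne_zero θ)⟩
    have e : (fun θ => f θ / g θ) = fun θ => f θ * (g θ)⁻¹ := by
      funext θ
      rw [div_eq_mul_inv]
    rw [e]
    exact hf.smooth.mul (hg.smooth.inv hg.ne_zero)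
  have h1 := pairing_cons_mul hq hg hv
  have e : (fun θ => f θ / g θ * g θ) = f := by
    funext θ
    exact div_mul_cancel₀ _ (hg.ne_zero θ)
  rw [e] at h1
  linarith

end eval

end Pool.Agent.TH826.MH
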