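import Pool.Agent.TH826.MH.Val
import Pool.Agent.TH826.MK.LinA
set_option autoImplicit false

/-!
Nonvanishing of the regulator determinant for large `λ`.
-/

namespace Pool.Agent.TH826.MH

open Pool.Agent.TH826.MK

theorem wt_self {n : ℕ} (t : Fin n) : wt t t = 1 := by
  unfold wt
  rw [if_pos rfl, if_neg, sub_zero]
  intro h
  have := congrArg Fin.val h
  simp at this

theorem wt_ne {n : ℕ} {t i : Fin n} (h : wt t i ≠ 0) : i = t ∨ (i : ℕ) + 1 = t := by
  unfold wt at h
  by_cases h1 : i.castSucc = t.castSucc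
  · left
    exact Fin.castSucc_injective _ h1
  · by_cases h2 : i.succ = t.castSucc
    · right
      have := congrArg Fin.val h2
      simpa using this
    · rw [if_neg h1, if_neg h2, sub_zero] at h
      exact absurd rfl h

theorem abs_prod_wt_le {n : ℕ} {r : Fin n → ℕ} (t i : ∀ k, Fin (r k)) :
    |∏ k, wt (t k) (i k)| ≤ 1 := by
  rw [Finset.abs_prod]
  exact Finset.prod_le_one (fun k _ => abs_nonneg _) fun k _ => abs_wt_le _ _

/-- the height -/
def ht {n : ℕ} {r : Fin n → ℕ} (i : ∀ k, Fin (r k)) : ℕ := ∑ k, (r k - (i k : ℕ))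

theorem prod_wt_eq_zero {n : ℕ} {r : Fin n → ℕ} {t i : ∀ k, Fin (r k)} (hne : i ≠ t)
    (hh : ht i ≤ ht t) : ∏ k, wt (t k) (i k) = 0 := by
  by_contra h
  rw [← Ne, Finset.prod_ne_zero_iff] at h
  have h1 : ∀ k, (i k : ℕ) = t k ∨ (i k : ℕ) + 1 = t k := fun k => by
    rcases wt_ne (h k (Finset.mem_univ k)) with h2 | h2
    · left; rw [h2]
    · right; exact h2
  obtain ⟨k0, hk0⟩ : ∃ k, i k ≠ t k := by
    by_contra hcon
    push Not at hcon
    exact hne (funext hcon)
  have h2 : ht t < ht i := by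
    unfold ht
    refine Finset.sum_lt_sum (fun k _ => ?_) ⟨k0, Finset.mem_univ _, ?_⟩
    · have := h1 k
      omega
    · have h3 := h1 k0
      have h4 : (i k0 : ℕ) ≠ t k0 := fun e => hk0 (Fin.ext e)
      have h5 := (t k0).isLt
      omega
  omega

theorem exists_tori {K : Type*} [Field K] (σ : K →+* ℂ) {d : ℕ} {r : Fin (d + 1) → ℕ}
    (a : ∀ k, Fin (r k + 1) → K) (ha : ∀ k, Function.Injective (a k)) :
    ∃ c : ℝ, 1 ≤ c ∧ ∀ lam : K, c ≤ ‖σ lam‖ →
      ∃ Γ : (∀ k, Fin (r k)) → Torus (CRing lam a) d,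
        (∀ t θ x, (Γ t).e θ (fpol lam a (MvPolynomial.C x)) = σ x) ∧
        (Matrix.of fun t i : (∀ k, Fin (r k)) => (Γ t).reg (symb (ent lam a i))).det ≠ 0 := by
  classical
  choose Λ B hΛ using fun t => exists_torus σ a ha t
  set n : ℕ := Fintype.card (∀ k, Fin (r k)) with hn
  set B0 : ℝ := ∑ t, |B t| with hB0
  set Λ0 : ℝ := ∑ t, |Λ t| with hΛ0
  have hB00 : 0 ≤ B0 := Finset.sum_nonneg fun t _ => abs_nonneg _
  have hBt : ∀ t, B t ≤ B0 := fun t =>
    (le_abs_self _).trans (Finset.single_le_sum (f := fun t => |B t|) (fun t _ => abs_nonneg _)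
      (Finset.mem_univ t))
  have hΛt : ∀ t, Λ t ≤ Λ0 := fun t =>
    (le_abs_self _).trans (Finset.single_le_sum (f := fun t => |Λ t|) (fun t _ => abs_nonneg _)
      (Finset.mem_univ t))
  set S : ℝ := n + n.factorial * 2 ^ n with hS
  have hS0 : 0 < S := by
    have h1 : 0 < (n.factorial : ℝ) * 2 ^ n := by
      have := Nat.factorial_pos n
      positivity
    have h2 : 0 ≤ (n : ℝ) := Nat.cast_nonneg n
    rw [hS]
    linarith
  set δ : ℝ := 1 / (S + 1) with hδdef
  have hδ : 0 < δ := by rw [hδdef]; positivity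
  have hδ1 : δ ≤ 1 := by
    rw [hδdef, div_le_one (by positivity)]
    linarith
  have hsmall : (n : ℝ) * δ + (n.factorial * 2 ^ n) * δ < 1 := by
    rw [← add_mul, ← hS, hδdef, mul_one_div, div_lt_one (by positivity)]
    linarith
  have hpi : 0 < (2 * Real.pi) ^ d := by positivity
  set E : ℝ := B0 / ((2 * Real.pi) ^ d * δ) + 1 with hE
  have hE0 : 0 < E := by positivity
  refine ⟨max Λ0 (Real.exp E), (Real.one_le_exp hE0.le).trans (le_max_right _ _),
    fun lam hlam => ?_⟩
  have hlog : E ≤ Real.log ‖σ lam‖ := by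
    rw [Real.le_log_iff_exp_le ((Real.exp_pos E).trans_le ((le_max_right _ _).trans hlam))]
    exact (le_max_right _ _).trans hlam
  choose Γ hΓ1 hΓ2 using fun t => hΛ t lam ((hΛt t).trans ((le_max_left _ _).trans hlam))
  refine ⟨Γ, hΓ1, ?_⟩
  set D : ℝ := (2 * Real.pi) ^ d * Real.log ‖σ lam‖ with hD
  have hDpos : 0 < D := mul_pos hpi (hE0.trans_le hlog)
  have hBD : B0 ≤ δ * D := by
    have h1 : B0 / ((2 * Real.pi) ^ d * δ) ≤ Real.log ‖σ lam‖ := by linarith
    rw [div_le_iff₀ (by positivity)] at h1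
    calc B0 ≤ Real.log ‖σ lam‖ * ((2 * Real.pi) ^ d * δ) := h1
      _ = δ * D := by rw [hD]; ring
  set M : Matrix (∀ k, Fin (r k)) (∀ k, Fin (r k)) ℝ := Matrix.of fun t i => (Γ t).reg (symb (ent lam a i)) with hM
  have hN : (-M).det ≠ 0 := by
    refine det_ne_zero_of_near (fun i : (∀ k, Fin (r k)) => ht i) (B := 2) (δ := δ) le_rfl hδ hδ1 hsmall (-M)
      (fun _ => D) (fun _ => hDpos) (fun t => ?_) (fun t i hi hh => ?_) (fun t i _ => ?_)
    · have h1 := hΓ2 t t
      rw [Finset.prod_eq_one fun k _ => wt_self (t k), mul_one] at h1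
      have h2 : (-M) t t - D = -((Γ t).reg (symb (ent lam a t)) + D) := by
        rw [Matrix.neg_apply, hM, Matrix.of_apply]
        ring
      rw [h2, abs_neg]
      exact h1.trans ((hBt t).trans hBD)
    · have h1 := hΓ2 t i
      rw [prod_wt_eq_zero hi hh, mul_zero, add_zero] at h1
      have h2 : (-M) t i = -((Γ t).reg (symb (ent lam a i))) := by
        rw [Matrix.neg_apply, hM, Matrix.of_apply]
      rw [h2, abs_neg]
      exact h1.trans ((hBt t).trans hBD)
    · have h1 := hΓ2 t i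
      have h2 : (-M) t i = -((Γ t).reg (symb (ent lam a i))) := by
        rw [Matrix.neg_apply, hM, Matrix.of_apply]
      rw [h2, abs_neg]
      have h3 : |D * ∏ k, wt (t k) (i k)| ≤ D := by
        rw [abs_mul, abs_of_pos hDpos]
        calc D * |∏ k, wt (t k) (i k)| ≤ D * 1 :=
              mul_le_mul_of_nonneg_left (abs_prod_wt_le _ _) hDpos.le
          _ = D := mul_one D
      have h4 : δ * D ≤ 1 * D := mul_le_mul_of_nonneg_right hδ1 hDpos.le
      have h5 := abs_le.1 (h1.trans ((hBt t).trans hBD))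
      have h6 := abs_le.1 h3
      rw [abs_le]
      constructor <;> linarith [h5.1, h5.2, h6.1, h6.2]
  intro h0
  apply hN
  rw [Matrix.det_neg, h0, mul_zero]

end Pool.Agent.TH826.MH
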