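import Pool.Agent.TH826.MK.Variety
set_option autoImplicit false

/-!
The hypersurfaces `λ ∏_k ∏_i (x_k - a_{k,i}) = 1` and the symbols on them.
-/

namespace Pool.Agent.TH826.MH

open scoped WithZero

open Pool.Agent.TH826.MK (KQ symb Unramified unitPart)

section Ring

variable {K : Type*} [Field K] {n : ℕ} {r : Fin n → ℕ}

/-- The polynomial `λ ∏_k ∏_i (x_k - a_{k,i}) - 1`, `1 ≤ k ≤ n`, `0 ≤ i ≤ r_k`. -/
noncomputable def eqn (lam : K) (a : ∀ k, Fin (r k + 1) → K) : MvPolynomial (Fin n) K :=
  MvPolynomial.C lam * ∏ k, ∏ i, (MvPolynomial.X k - MvPolynomial.C (a k i)) - 1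

/-- The coordinate ring of the hypersurface `λ ∏_k ∏_i (x_k - a_{k,i}) = 1` in the affine space with
coordinates `x_1, ..., x_n`. -/
def CRing (lam : K) (a : ∀ k, Fin (r k + 1) → K) : Type _ :=
  MvPolynomial (Fin n) K ⧸ Ideal.span {eqn lam a}

variable (lam : K) (a : ∀ k, Fin (r k + 1) → K)

noncomputable instance : CommRing (CRing lam a) :=
  Ideal.Quotient.commRing (Ideal.span {eqn lam a})

/-- The polynomials in `x_1, ..., x_n` as functions on the hypersurface. -/
noncomputable def fpol : MvPolynomial (Fin n) K →+* CRing lam a :=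
  Ideal.Quotient.mk (Ideal.span {eqn lam a})

/-- The function `x_k - c`. -/
noncomputable def fx (k : Fin n) (c : K) : CRing lam a :=
  fpol lam a (MvPolynomial.X k - MvPolynomial.C c)

theorem fpol_eqn : fpol lam a (eqn lam a) = 0 :=
  Ideal.Quotient.eq_zero_iff_mem.2 (Ideal.subset_span rfl)

theorem prod_eq_one : fpol lam a (MvPolynomial.C lam) * ∏ k, ∏ i, fx lam a k (a k i) = 1 := by
  have h := fpol_eqn lam a
  unfold eqn at h
  rw [map_sub, map_mul, map_one, map_prod, sub_eq_zero] at h
  rw [← h]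
  congr 1
  refine Finset.prod_congr rfl fun k _ => ?_
  rw [map_prod]
  rfl

theorem isUnit_fx (k : Fin n) (i : Fin (r k + 1)) : IsUnit (fx lam a k (a k i)) := by
  refine isUnit_of_dvd_one ?_
  rw [← prod_eq_one lam a]
  refine Dvd.dvd.mul_left ?_ _
  exact (Finset.dvd_prod_of_mem (fun i => fx lam a k (a k i)) (Finset.mem_univ i)).trans
    (Finset.dvd_prod_of_mem (fun k => ∏ i, fx lam a k (a k i)) (Finset.mem_univ k))

/-- The unit `x_k - a_{k,i}` of the coordinate ring. -/
noncomputable def ux (k : Fin n) (i : Fin (r k + 1)) : (CRing lam a)ˣ :=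
  (isUnit_fx lam a k i).unit

theorem coe_ux (k : Fin n) (i : Fin (r k + 1)) :
    (ux lam a k i : CRing lam a) = fx lam a k (a k i) := rfl

/-- The entries `u_1, ..., u_n`, where `u_k = (x_k - a_{k,i_k}) / (x_k - a_{k,i_k+1})`. -/
noncomputable def ent (i : ∀ k, Fin (r k)) (k : Fin n) : (CRing lam a)ˣ :=
  ux lam a k (i k).castSucc / ux lam a k (i k).succ

end Ring

section Irr

open Polynomial

theorem irr {R S : Type*} [CommRing R] [IsDomain R] [CommRing S] [IsDomain S] (φ : R →+* S)
    (f : R[X]) (hd : 0 < f.natDegree) (h0 : φ (f.coeff 0) ≠ 0)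
    (h1 : ∀ n, 1 ≤ n → φ (f.coeff n) = 0)
    (hlead : ∀ g h : R, φ g = 0 → φ h = 0 → f.leadingCoeff ≠ g * h)
    (hprim : ∀ c : R, C c ∣ f → IsUnit c) : Irreducible f := by
  have hmap : f.map φ = C (φ (f.coeff 0)) := by
    ext n
    rw [coeff_map, coeff_C]
    split_ifs with h
    · rw [h]
    · exact h1 n (Nat.one_le_iff_ne_zero.2 h)
  have hf0 : f.map φ ≠ 0 := by
    rw [hmap, Ne, C_eq_zero]
    exact h0
  refine ⟨fun hu => ?_, fun g h hgh => ?_⟩
  · have := natDegree_eq_zero_of_isUnit hu
    omega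
  · have hm : g.map φ * h.map φ = f.map φ := by rw [hgh, Polynomial.map_mul]
    have hg0 : g.map φ ≠ 0 := by
      rintro e
      rw [e, zero_mul] at hm
      exact hf0 hm.symm
    have hh0 : h.map φ ≠ 0 := by
      rintro e
      rw [e, mul_zero] at hm
      exact hf0 hm.symm
    have hdeg : (g.map φ).natDegree + (h.map φ).natDegree = 0 := by
      rw [← natDegree_mul hg0 hh0, hm, hmap, natDegree_C]
    have key : ∀ p : R[X], (p.map φ).natDegree = 0 → 0 < p.natDegree → φ p.leadingCoeff = 0 := by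
      intro p hp hpos
      have : (p.map φ).coeff p.natDegree = 0 := coeff_eq_zero_of_natDegree_lt (by omega)
      rwa [coeff_map] at this
    by_cases hgd : g.natDegree = 0
    · left
      rw [natDegree_eq_zero] at hgd
      obtain ⟨c, rfl⟩ := hgd
      exact (hprim c ⟨h, hgh⟩).map C
    · by_cases hhd : h.natDegree = 0
      · right
        rw [natDegree_eq_zero] at hhd
        obtain ⟨c, rfl⟩ := hhd
        exact (hprim c ⟨g, by rw [hgh, mul_comm]⟩).map C
      · exfalso
        refine hlead g.leadingCoeff h.leadingCoeff (key g (by omega) (by omega))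
          (key h (by omega) (by omega)) ?_
        rw [hgh, leadingCoeff_mul]

/-- polynomials `q p - 1` -/
theorem irr_sub_one {R S : Type*} [CommRing R] [IsDomain R] [CommRing S] [IsDomain S]
    (φ : R →+* S) (q : R) (p : R[X]) (hp : p.Monic) (hd : 0 < p.natDegree) (hq : φ q = 0)
    (hq0 : q ≠ 0) (hlead : ∀ g h : R, φ g = 0 → φ h = 0 → q ≠ g * h) :
    Irreducible (C q * p - 1) := by
  have hdeg : (C q * p).natDegree = p.natDegree := natDegree_C_mul hq0
  have hdeg1 : (C q * p - 1).natDegree = p.natDegree := by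
    rw [← hdeg]
    refine natDegree_sub_eq_left_of_natDegree_lt ?_
    rw [natDegree_one, hdeg]
    exact hd
  have hc : ∀ n, 1 ≤ n → (C q * p - 1).coeff n = q * p.coeff n := by
    intro n hn
    rw [coeff_sub, coeff_C_mul, coeff_one, if_neg (by omega), sub_zero]
  have hl : (C q * p - 1).leadingCoeff = q := by
    rw [leadingCoeff, hdeg1, hc _ hd, hp.coeff_natDegree, mul_one]
  refine irr φ _ (by rw [hdeg1]; exact hd) ?_ (fun n hn => ?_) ?_ ?_
  · rw [coeff_sub, coeff_C_mul, coeff_one, if_pos rfl, map_sub, map_mul, hq, zero_mul, zero_sub,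
      map_one]
    exact neg_ne_zero.2 one_ne_zero
  · rw [hc n hn, map_mul, hq, zero_mul]
  · rw [hl]
    exact hlead
  · intro c hcd
    rw [C_dvd_iff_dvd_coeff] at hcd
    have h1 := hcd p.natDegree
    rw [hc _ hd, hp.coeff_natDegree, mul_one] at h1
    have h2 := hcd 0
    rw [coeff_sub, coeff_C_mul, coeff_one, if_pos rfl] at h2
    refine isUnit_of_dvd_one ?_
    have h3 := (dvd_sub (h1.mul_right (p.coeff 0)) h2)
    rwa [sub_sub_cancel] at h3

end Irr

section Domain

variable {K : Type*} [Field K] [Infinite K] {m : ℕ} {r : Fin (m + 1 + 1) → ℕ}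

/-- the coefficient `λ ∏_{k > 0} ∏_i (x_k - a_{k,i})` -/
noncomputable def coe0 (lam : K) (a : ∀ k, Fin (r k + 1) → K) : MvPolynomial (Fin (m + 1)) K :=
  MvPolynomial.C lam * ∏ k : Fin (m + 1), ∏ i, (MvPolynomial.X k - MvPolynomial.C (a k.succ i))

omit [Infinite K] in
theorem finSucc_eqn (lam : K) (a : ∀ k, Fin (r k + 1) → K) :
    MvPolynomial.finSuccEquiv K (m + 1) (eqn lam a) =
      Polynomial.C (coe0 lam a) *
        ∏ i, (Polynomial.X - Polynomial.C (MvPolynomial.C (a 0 i))) - 1 := by
  unfold eqn coe0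
  rw [Fin.prod_univ_succ]
  simp only [map_sub, map_mul, map_prod, map_one, MvPolynomial.finSuccEquiv_X_zero,
    MvPolynomial.finSuccEquiv_X_succ]
  have hC : ∀ c : K, MvPolynomial.finSuccEquiv K (m + 1) (MvPolynomial.C c) =
      Polynomial.C (MvPolynomial.C c) := by
    intro c
    rw [MvPolynomial.finSuccEquiv_apply]
    simp
  simp only [hC]
  ring

theorem irreducible_eqn (lam : K) (a : ∀ k, Fin (r k + 1) → K) (hl : lam ≠ 0)
    (ha : ∀ k, Function.Injective (a k)) : Irreducible (eqn lam a) := by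
  rw [← MulEquiv.irreducible_iff (MvPolynomial.finSuccEquiv K (m + 1)), finSucc_eqn]
  have hmon : (∏ i, (Polynomial.X - Polynomial.C (MvPolynomial.C (a 0 i))) :
      Polynomial (MvPolynomial (Fin (m + 1)) K)).Monic :=
    Polynomial.monic_prod_of_monic _ _ fun i _ => Polynomial.monic_X_sub_C _
  have hdeg : (∏ i, (Polynomial.X - Polynomial.C (MvPolynomial.C (a 0 i))) :
      Polynomial (MvPolynomial (Fin (m + 1)) K)).natDegree = r 0 + 1 := by
    rw [Polynomial.natDegree_prod_of_monic _ _ fun i _ => Polynomial.monic_X_sub_C _]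
    simp
  -- the point
  have h1 : ∀ k : Fin m, ∃ x : K, ∀ i, x ≠ a k.succ.succ i := by
    classical
    intro k
    obtain ⟨x, hx⟩ := Infinite.exists_notMem_finset (Finset.univ.image (a k.succ.succ))
    exact ⟨x, fun i e => hx (by rw [e]; exact Finset.mem_image_of_mem _ (Finset.mem_univ i))⟩
  choose x hx using h1
  set y : Fin (m + 1) → K := Fin.cons (a (Fin.succ 0) 0) x with hy
  -- the splitting of the coefficient
  set q' : MvPolynomial (Fin (m + 1)) K := MvPolynomial.C lam *
    ((∏ i : Fin (r (Fin.succ 0)), (MvPolynomial.X 0 - MvPolynomial.C (a (Fin.succ 0) i.succ))) *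
      ∏ k : Fin m, ∏ i, (MvPolynomial.X k.succ - MvPolynomial.C (a k.succ.succ i))) with hq'
  have hsplit : coe0 lam a = (MvPolynomial.X 0 - MvPolynomial.C (a (Fin.succ 0) 0)) * q' := by
    unfold coe0
    rw [Fin.prod_univ_succ, Fin.prod_univ_succ, hq']
    ring
  have hq'y : MvPolynomial.eval y q' ≠ 0 := by
    rw [hq']
    simp only [map_mul, map_prod, map_sub, MvPolynomial.eval_C, MvPolynomial.eval_X]
    refine mul_ne_zero hl (mul_ne_zero ?_ ?_)
    · refine Finset.prod_ne_zero_iff.2 fun i _ => ?_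
      rw [hy, Fin.cons_zero, sub_ne_zero]
      intro e
      exact (Fin.succ_ne_zero i).symm (ha _ e)
    · refine Finset.prod_ne_zero_iff.2 fun k _ => Finset.prod_ne_zero_iff.2 fun i _ => ?_
      rw [hy, Fin.cons_succ, sub_ne_zero]
      exact hx k i
  have hqy : MvPolynomial.eval y (coe0 lam a) = 0 := by
    rw [hsplit, map_mul, map_sub, MvPolynomial.eval_X, MvPolynomial.eval_C, hy, Fin.cons_zero,
      sub_self, zero_mul]
  have hX : (MvPolynomial.X 0 - MvPolynomial.C (a (Fin.succ 0) 0) :
      MvPolynomial (Fin (m + 1)) K) ≠ 0 := by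
    intro h
    have h2 := congrArg (MvPolynomial.eval fun _ => a (Fin.succ 0) 0 + 1) h
    simp at h2
  have hq0 : coe0 lam a ≠ 0 := by
    rw [hsplit]
    refine mul_ne_zero hX ?_
    rintro e
    rw [e, map_zero] at hq'y
    exact hq'y rfl
  refine irr_sub_one (MvPolynomial.eval y) (coe0 lam a) _ hmon (by rw [hdeg]; omega) hqy hq0 ?_
  intro g h hg hh e
  have h2 := congrArg (fun p => MvPolynomial.eval y (MvPolynomial.pderiv 0 p)) e
  rw [hsplit] at h2
  simp only [Derivation.leibniz, smul_eq_mul, map_add, map_mul, hg, hh, zero_mul, map_sub,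
    MvPolynomial.pderiv_X_self, MvPolynomial.pderiv_C, sub_zero, mul_one, map_one,
    MvPolynomial.eval_X, MvPolynomial.eval_C, add_zero] at h2
  rw [hy, Fin.cons_zero, sub_self, zero_mul, zero_add, ← hy] at h2
  exact hq'y h2

theorem isDomain_CRing (lam : K) (a : ∀ k, Fin (r k + 1) → K) (hl : lam ≠ 0)
    (ha : ∀ k, Function.Injective (a k)) : IsDomain (CRing lam a) := by
  have h := irreducible_eqn lam a hl ha
  have hp : (Ideal.span {eqn lam a}).IsPrime :=
    (Ideal.span_singleton_prime h.ne_zero).2 h.prime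
  exact Ideal.Quotient.isDomain _

end Domain

section Unram

variable {K : Type*} [Field K] {n : ℕ} {r : Fin n → ℕ} {lam : K} {a : ∀ k, Fin (r k + 1) → K}
  {L : Type*} [Field L] (f : CRing lam a →+* L)

/-- the composite map from the coefficient field -/
noncomputable def cst : K →+* L := f.comp ((fpol lam a).comp MvPolynomial.C)

/-- the image of `x_k` -/
noncomputable def xL (k : Fin n) : L := f (fpol lam a (MvPolynomial.X k))

theorem map_fx (k : Fin n) (c : K) : f (fx lam a k c) = xL f k - cst f c := by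
  unfold fx xL cst
  rw [map_sub, map_sub]
  rfl

theorem prod_xL : cst f lam * ∏ k, ∏ i, (xL f k - cst f (a k i)) = 1 := by
  have h := congrArg f (prod_eq_one lam a)
  rw [map_mul, map_one, map_prod] at h
  rw [← h]
  congr 1
  refine Finset.prod_congr rfl fun k _ => ?_
  rw [map_prod]
  refine Finset.prod_congr rfl fun i _ => ?_
  rw [map_fx]

theorem xL_sub_ne_zero (k : Fin n) (i : Fin (r k + 1)) : xL f k - cst f (a k i) ≠ 0 := by
  rw [← map_fx]
  exact ((isUnit_fx lam a k i).map f).ne_zero

theorem map_ent (i : ∀ k, Fin (r k)) (k : Fin n) :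
    ((Units.map (f : CRing lam a →* L) (ent lam a i k) : Lˣ) : L) =
      (xL f k - cst f (a k (i k).castSucc)) / (xL f k - cst f (a k (i k).succ)) := by
  have h : ent lam a i k = ux lam a k (i k).castSucc / ux lam a k (i k).succ := rfl
  rw [h, map_div, Units.val_div_eq_div_val, ← map_fx, ← map_fx]
  rfl

/-- The symbols are unramified at all discrete valuations. -/
theorem symb_mem_unitPart (hlam : IsIntegral ℤ lam) (ha : ∀ k i, IsIntegral ℤ (a k i))
    (v : Valuation L ℤᵐ⁰) (i : ∀ k, Fin (r k)) :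
    symb (fun l => Units.map (f : CRing lam a →* L) (ent lam a i l)) ∈ unitPart v n := by
  have hc : ∀ c : K, IsIntegral ℤ c → v (cst f c) ≤ 1 := fun c hc =>
    Pool.Agent.TH826.MK.val_le_one_of_integral v (map_isIntegral_int _ hc)
  by_cases hA : ∃ k, 1 < v (xL f k)
  · obtain ⟨k, hk⟩ := hA
    refine Pool.Agent.TH826.MK.mem_unitPart_of_oneUnit' v k _ ?_
    rw [map_ent, div_sub_one (xL_sub_ne_zero f k _), map_div₀]
    have h1 : v (xL f k - cst f (a k (i k).succ)) = v (xL f k) :=
      Valuation.map_sub_eq_of_lt_left v ((hc _ (ha k _)).trans_lt hk)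
    have h2 : v (xL f k - cst f (a k (i k).castSucc) -
        (xL f k - cst f (a k (i k).succ))) ≤ 1 := by
      have e : xL f k - cst f (a k (i k).castSucc) - (xL f k - cst f (a k (i k).succ)) =
        cst f (a k (i k).succ) - cst f (a k (i k).castSucc) := by ring
      rw [e]
      exact (v.map_sub _ _).trans (max_le (hc _ (ha k _)) (hc _ (ha k _)))
    rw [h1]
    have h3 : 0 < v (xL f k) := zero_lt_one.trans hk
    rw [div_lt_one₀ h3]
    exact h2.trans_lt hk
  · push Not at hA
    have hsub : ∀ k j, v (xL f k - cst f (a k j)) ≤ 1 := fun k j =>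
      (v.map_sub _ _).trans (max_le (hA k) (hc _ (ha k j)))
    have hone := congrArg v (prod_xL f)
    rw [map_mul, map_one, map_prod] at hone
    have hB : ∀ k j, v (xL f k - cst f (a k j)) = 1 := by
      intro k j
      refine le_antisymm (hsub k j) ?_
      rw [← hone]
      rw [← Finset.mul_prod_erase _ _ (Finset.mem_univ k), map_prod,
        ← Finset.mul_prod_erase _ _ (Finset.mem_univ j)]
      have h1 : ∏ x ∈ Finset.univ.erase j, v (xL f k - cst f (a k x)) ≤ 1 :=
        Finset.prod_le_one' fun j _ => hsub k j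
      have h2 : ∏ x ∈ Finset.univ.erase k, v (∏ i, (xL f x - cst f (a x i))) ≤ 1 := by
        refine Finset.prod_le_one' fun k _ => ?_
        rw [map_prod]
        exact Finset.prod_le_one' fun j _ => hsub k j
      calc v (cst f lam) * (v (xL f k - cst f (a k j)) *
            (∏ x ∈ Finset.univ.erase j, v (xL f k - cst f (a k x))) *
            ∏ x ∈ Finset.univ.erase k, v (∏ i, (xL f x - cst f (a x i))))
          ≤ 1 * (v (xL f k - cst f (a k j)) * 1 * 1) :=
            mul_le_mul' (hc _ hlam) (mul_le_mul' (mul_le_mul' le_rfl h1) h2)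
        _ = v (xL f k - cst f (a k j)) := by rw [one_mul, mul_one, mul_one]
    refine Submodule.subset_span ⟨_, fun l => ?_, rfl⟩
    rw [map_ent, map_div₀, hB, hB, div_one]

theorem symb_mem_unramified (hlam : IsIntegral ℤ lam) (ha : ∀ k i, IsIntegral ℤ (a k i))
    (i : ∀ k, Fin (r k)) : KQ.map n f (symb (ent lam a i)) ∈ Unramified L n := by
  rw [KQ.map_symb]
  unfold Unramified
  simp only [Submodule.mem_iInf]
  intro v _
  exact symb_mem_unitPart f hlam ha v i

end Unram

end Pool.Agent.TH826.MH
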