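import Pool.Agent.TH826.MH.Ring
set_option autoImplicit false

/-!
The hypersurfaces `λ ∏_k ∏_i (x_k - a_{k,i}) = 1` are smooth for large `λ`.
-/

namespace Pool.Agent.TH826.MH

open Polynomial

section

variable {K : Type*} [Field K] {n : ℕ} {r : Fin n → ℕ}

/-- the polynomial `∏_i (x - a_i)` -/
noncomputable def qq {m : ℕ} (a : Fin m → K) : K[X] := ∏ i, (X - C (a i))

theorem eqn_eq (lam : K) (a : ∀ k, Fin (r k + 1) → K) (k : Fin n) :
    eqn lam a = MvPolynomial.C lam * (aeval (MvPolynomial.X k) (qq (a k)) *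
      ∏ l ∈ Finset.univ.erase k, aeval (MvPolynomial.X l) (qq (a l))) - 1 := by
  have h : ∀ l, aeval (MvPolynomial.X l : MvPolynomial (Fin n) K) (qq (a l)) =
      ∏ i, (MvPolynomial.X l - MvPolynomial.C (a l i)) := by
    intro l
    unfold qq
    rw [map_prod]
    refine Finset.prod_congr rfl fun i _ => ?_
    rw [map_sub, aeval_X, aeval_C]
    rfl
  unfold eqn
  rw [Finset.mul_prod_erase Finset.univ
    (fun l => aeval (MvPolynomial.X l : MvPolynomial (Fin n) K) (qq (a l))) (Finset.mem_univ k)]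
  simp only [h]

theorem pderiv_eqn (lam : K) (a : ∀ k, Fin (r k + 1) → K) (k : Fin n) :
    MvPolynomial.pderiv k (eqn lam a) = MvPolynomial.C lam *
      (aeval (MvPolynomial.X k) (derivative (qq (a k))) *
        ∏ l ∈ Finset.univ.erase k, aeval (MvPolynomial.X l) (qq (a l))) := by
  have h0 : MvPolynomial.pderiv k (∏ l ∈ Finset.univ.erase k,
      aeval (MvPolynomial.X l : MvPolynomial (Fin n) K) (qq (a l))) = 0 := by
    refine Finset.prod_induction _ (fun p => MvPolynomial.pderiv k p = 0) ?_ ?_ ?_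
    · intro p q hp hq
      rw [Derivation.leibniz, hp, hq, smul_zero, smul_zero, add_zero]
    · exact Derivation.map_one_eq_zero _
    · intro l hl
      rw [Derivation.map_aeval, MvPolynomial.pderiv_X_of_ne (Finset.ne_of_mem_erase hl), smul_zero]
  rw [eqn_eq lam a k, map_sub, Derivation.map_one_eq_zero, sub_zero, Derivation.leibniz,
    MvPolynomial.pderiv_C, smul_zero, add_zero, Derivation.leibniz, h0, smul_zero, zero_add,
    Derivation.map_aeval, MvPolynomial.pderiv_X_self]
  simp only [smul_eq_mul, mul_one]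
  ring

theorem eval_aeval (σ : K →+* ℂ) (x : Fin n → ℂ) (l : Fin n) (p : K[X]) :
    MvPolynomial.eval₂ σ x (aeval (MvPolynomial.X l) p) = p.eval₂ σ (x l) := by
  have h : (MvPolynomial.eval₂Hom σ x).comp
      (aeval (MvPolynomial.X l : MvPolynomial (Fin n) K) : K[X] →ₐ[K] _).toRingHom =
      eval₂RingHom σ (x l) := by
    refine Polynomial.ringHom_ext (fun c => ?_) ?_
    · simp
    · simp
  exact DFunLike.congr_fun h p

theorem exists_crit {m : ℕ} (β : Fin (m + 1) → ℂ) (hβ : Function.Injective β) :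
    ∃ μ : ℝ, 0 < μ ∧ ∀ c : ℂ, (derivative (qq β)).eval c = 0 → μ ≤ ‖(qq β).eval c‖ := by
  classical
  have hmon : (qq β).Monic := monic_prod_of_monic _ _ fun i _ => monic_X_sub_C _
  have hdeg : (qq β).natDegree = m + 1 := by
    unfold qq
    rw [natDegree_prod_of_monic _ _ fun i _ => monic_X_sub_C _]
    simp
  have hd0 : derivative (qq β) ≠ 0 := by
    intro h
    have h1 := derivative_eq_zero.1 h
    omega
  have hpos : ∀ c : ℂ, (derivative (qq β)).eval c = 0 → 0 < ‖(qq β).eval c‖ := by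
    intro c hc
    rw [norm_pos_iff]
    intro h0
    have h1 : ∏ i, (c - β i) = 0 := by
      have := h0
      unfold qq at this
      rw [eval_prod] at this
      simpa using this
    obtain ⟨i, -, hi⟩ := Finset.prod_eq_zero_iff.1 h1
    have hsplit : qq β = (X - C (β i)) * ∏ j ∈ Finset.univ.erase i, (X - C (β j)) :=
      (Finset.mul_prod_erase _ _ (Finset.mem_univ i)).symm
    rw [hsplit, derivative_mul, eval_add, eval_mul, eval_mul] at hc
    have hci : c = β i := sub_eq_zero.1 hi
    rw [derivative_sub, derivative_X, derivative_C, sub_zero, eval_one, one_mul, eval_sub, eval_X,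
      eval_C, hci, sub_self, zero_mul, add_zero, eval_prod] at hc
    obtain ⟨j, hj, hj0⟩ := Finset.prod_eq_zero_iff.1 hc
    rw [eval_sub, eval_X, eval_C, sub_eq_zero] at hj0
    exact (Finset.ne_of_mem_erase hj) (hβ hj0).symm
  set S : Finset ℂ := (derivative (qq β)).roots.toFinset with hS
  have hmem : ∀ c, (derivative (qq β)).eval c = 0 → c ∈ S := by
    intro c hc
    rw [hS, Multiset.mem_toFinset, mem_roots hd0]
    exact hc
  have hmem' : ∀ c ∈ S, (derivative (qq β)).eval c = 0 := by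
    intro c hc
    rw [hS, Multiset.mem_toFinset, mem_roots hd0] at hc
    exact hc
  rcases S.eq_empty_or_nonempty with hE | hE
  · refine ⟨1, one_pos, fun c hc => ?_⟩
    have := hmem c hc
    rw [hE] at this
    exact absurd this (Finset.notMem_empty c)
  · obtain ⟨c0, hc0, hmin⟩ := S.exists_min_image (fun c => ‖(qq β).eval c‖) hE
    exact ⟨‖(qq β).eval c0‖, hpos c0 (hmem' c0 hc0), fun c hc => hmin c (hmem c hc)⟩

theorem exists_smooth (σ : K →+* ℂ) (a : ∀ k, Fin (r k + 1) → K)
    (ha : ∀ k, Function.Injective (a k)) :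
    ∃ c : ℝ, ∀ lam : K, c ≤ ‖σ lam‖ → ∀ x : Fin n → ℂ, MvPolynomial.eval₂ σ x (eqn lam a) = 0 →
      ∃ k, MvPolynomial.eval₂ σ x (MvPolynomial.pderiv k (eqn lam a)) ≠ 0 := by
  have hβ : ∀ k, Function.Injective fun i => σ (a k i) := fun k => σ.injective.comp (ha k)
  choose μ hμ hμ2 using fun k => exists_crit _ (hβ k)
  have hmap : ∀ k, (qq (a k)).map σ = qq fun i => σ (a k i) := by
    intro k
    unfold qq
    rw [Polynomial.map_prod]
    refine Finset.prod_congr rfl fun i _ => ?_
    rw [Polynomial.map_sub, map_X, map_C]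
  have hP : 0 < ∏ k, μ k := Finset.prod_pos fun k _ => hμ k
  refine ⟨1 / (∏ k, μ k) + 1, fun lam hlam x hx => ?_⟩
  have h1 : σ lam * ∏ k, (qq (a k)).eval₂ σ (x k) = 1 := by
    rcases Nat.eq_zero_or_pos n with hn | hn
    · subst hn
      unfold eqn at hx
      simp only [Finset.univ_eq_empty, Finset.prod_empty, mul_one, MvPolynomial.eval₂_sub,
        MvPolynomial.eval₂_C, MvPolynomial.eval₂_one] at hx
      simp only [Finset.univ_eq_empty, Finset.prod_empty, mul_one]
      linear_combination hx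
    · rw [eqn_eq lam a ⟨0, hn⟩, MvPolynomial.eval₂_sub, MvPolynomial.eval₂_mul,
        MvPolynomial.eval₂_mul, MvPolynomial.eval₂_C, MvPolynomial.eval₂_one, eval_aeval,
        MvPolynomial.eval₂_prod] at hx
      rw [← Finset.mul_prod_erase _ _ (Finset.mem_univ (⟨0, hn⟩ : Fin n))]
      simp only [eval_aeval] at hx
      linear_combination hx
  by_contra hcon
  push Not at hcon
  have hcrit : ∀ k, (derivative (qq (a k))).eval₂ σ (x k) = 0 := by
    intro k
    have h2 := hcon k
    rw [pderiv_eqn, MvPolynomial.eval₂_mul, MvPolynomial.eval₂_mul, MvPolynomial.eval₂_C,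
      eval_aeval, MvPolynomial.eval₂_prod] at h2
    simp only [eval_aeval] at h2
    have h3 : σ lam ≠ 0 ∧ ∏ k, (qq (a k)).eval₂ σ (x k) ≠ 0 := by
      rw [← mul_ne_zero_iff, h1]
      exact one_ne_zero
    have h4 : ∏ l ∈ Finset.univ.erase k, (qq (a l)).eval₂ σ (x l) ≠ 0 :=
      Finset.prod_ne_zero_iff.2 fun l _ => (Finset.prod_ne_zero_iff.1 h3.2) l (Finset.mem_univ l)
    rcases mul_eq_zero.1 h2 with h5 | h5
    · exact absurd h5 h3.1
    · rcases mul_eq_zero.1 h5 with h6 | h6
      · exact h6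
      · exact absurd h6 h4
  have hge : ∀ k, μ k ≤ ‖(qq (a k)).eval₂ σ (x k)‖ := by
    intro k
    rw [← eval_map, hmap]
    refine hμ2 k (x k) ?_
    rw [← hmap, derivative_map, eval_map]
    exact hcrit k
  have h5 : ∏ k, μ k ≤ ‖∏ k, (qq (a k)).eval₂ σ (x k)‖ := by
    rw [norm_prod]
    exact Finset.prod_le_prod (fun k _ => (hμ k).le) fun k _ => hge k
  have h6 := congrArg norm h1
  rw [norm_mul, norm_one] at h6
  have h7 : 1 / (∏ k, μ k) < ‖σ lam‖ := by linarith
  rw [div_lt_iff₀ hP] at h7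
  have h8 : ‖σ lam‖ * ∏ k, μ k ≤ ‖σ lam‖ * ‖∏ k, (qq (a k)).eval₂ σ (x k)‖ :=
    mul_le_mul_of_nonneg_left h5 (norm_nonneg _)
  linarith

end

end Pool.Agent.TH826.MH
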