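import Pool.Agent.TH826.MH.Ring
import Pool.Agent.TH826.MH.Bd
set_option autoImplicit false

/-!
Tori in the hypersurfaces `λ ∏_k ∏_i (x_k - a_{k,i}) = 1`.
-/

namespace Pool.Agent.TH826.MH

open Pool.Agent.TH826.MK (Torus Good Per One vf circ)

section Ev

variable {K : Type*} [Field K] {n d : ℕ} {r : Fin n → ℕ} {σ : K →+* ℂ} {lam : K}
  {a : ∀ k, Fin (r k + 1) → K}

theorem eval_eqn (x : Fin n → ℂ) : MvPolynomial.eval₂Hom σ x (eqn lam a) =
    σ lam * ∏ k, ∏ i, (x k - σ (a k i)) - 1 := by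
  unfold eqn
  simp

/-- evaluation of the regular functions at a complex point of the hypersurface -/
noncomputable def evX {x : Fin n → ℂ} (hx : σ lam * ∏ k, ∏ i, (x k - σ (a k i)) = 1) :
    CRing lam a →+* ℂ :=
  Ideal.Quotient.lift (Ideal.span {eqn lam a}) (MvPolynomial.eval₂Hom σ x) (by
    intro p hp
    obtain ⟨q, rfl⟩ := Ideal.mem_span_singleton.1 hp
    rw [map_mul, eval_eqn, hx, sub_self, zero_mul])

theorem evX_fpol {x : Fin n → ℂ} (hx : σ lam * ∏ k, ∏ i, (x k - σ (a k i)) = 1)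
    (p : MvPolynomial (Fin n) K) : evX hx (fpol lam a p) = MvPolynomial.eval₂Hom σ x p :=
  Ideal.Quotient.lift_mk _ _ _

theorem evX_fx {x : Fin n → ℂ} (hx : σ lam * ∏ k, ∏ i, (x k - σ (a k i)) = 1) (k : Fin n)
    (c : K) : evX hx (fx lam a k c) = x k - σ c := by
  unfold fx
  rw [evX_fpol]
  simp

theorem evX_congr {x y : Fin n → ℂ} (hx : σ lam * ∏ k, ∏ i, (x k - σ (a k i)) = 1)
    (hy : σ lam * ∏ k, ∏ i, (y k - σ (a k i)) = 1) (h : x = y) : evX hx = evX hy := by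
  subst h
  rfl

theorem contDiff_evX {x : (Fin d → ℝ) → (Fin n → ℂ)} (hc : ContDiff ℝ 2 x)
    (hx : ∀ θ, σ lam * ∏ k, ∏ i, (x θ k - σ (a k i)) = 1) (h : CRing lam a) :
    ContDiff ℝ 2 fun θ => evX (hx θ) h := by
  have hxk : ∀ k, ContDiff ℝ 2 fun θ => x θ k := fun k => contDiff_pi.1 hc k
  obtain ⟨p, hp⟩ := Ideal.Quotient.mk_surjective h
  have hmv : ∀ p : MvPolynomial (Fin n) K,
      ContDiff ℝ 2 fun θ => MvPolynomial.eval₂Hom σ (x θ) p := by
    intro p
    induction p using MvPolynomial.induction_on with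
    | C c => simpa using contDiff_const
    | add p q hp hq => simpa using hp.add hq
    | mul_X p k hp => simpa using hp.mul (hxk k)
  have e : (fun θ => evX (hx θ) h) = fun θ => MvPolynomial.eval₂Hom σ (x θ) p := by
    funext θ
    rw [← hp]
    exact evX_fpol (hx θ) p
  rw [e]
  exact hmv p

/-- a torus in the hypersurface -/
noncomputable def mkT (x : (Fin d → ℝ) → (Fin n → ℂ)) (hc : ContDiff ℝ 2 x)
    (hp : ∀ θ i, x (θ + Pi.single i 1) = x θ)
    (hx : ∀ θ, σ lam * ∏ k, ∏ i, (x θ k - σ (a k i)) = 1) : Torus (CRing lam a) d where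
  e θ := evX (hx θ)
  smooth h := contDiff_evX hc hx h
  periodic θ i := evX_congr _ _ (hp θ i)

theorem mkT_ux (x : (Fin d → ℝ) → (Fin n → ℂ)) (hc : ContDiff ℝ 2 x)
    (hp : ∀ θ i, x (θ + Pi.single i 1) = x θ)
    (hx : ∀ θ, σ lam * ∏ k, ∏ i, (x θ k - σ (a k i)) = 1) (k : Fin n) (i : Fin (r k + 1)) :
    (mkT x hc hp hx).fn (ux lam a k i : CRing lam a) = fun θ => x θ k - σ (a k i) := by
  funext θ
  exact evX_fx (hx θ) k _

theorem mkT_ent (x : (Fin d → ℝ) → (Fin n → ℂ)) (hc : ContDiff ℝ 2 x)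
    (hp : ∀ θ i, x (θ + Pi.single i 1) = x θ)
    (hx : ∀ θ, σ lam * ∏ k, ∏ i, (x θ k - σ (a k i)) = 1) (i : ∀ k, Fin (r k)) (k : Fin n) :
    (mkT x hc hp hx).fn (ent lam a i k : CRing lam a) =
      fun θ => (x θ k - σ (a k (i k).castSucc)) / (x θ k - σ (a k (i k).succ)) := by
  have h1 : ent lam a i k = ux lam a k (i k).castSucc / ux lam a k (i k).succ := rfl
  have h4 := mkT_ux x hc hp hx k (i k).castSucc
  have h5 := mkT_ux x hc hp hx k (i k).succ
  funext θ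
  have h3 := ((mkT x hc hp hx).good (ux lam a k (i k).succ)).ne_zero θ
  have h6 : (mkT x hc hp hx).fn (ent lam a i k : CRing lam a) θ *
      (mkT x hc hp hx).fn (ux lam a k (i k).succ : CRing lam a) θ =
      (mkT x hc hp hx).fn (ux lam a k (i k).castSucc : CRing lam a) θ := by
    unfold Torus.fn
    rw [h1, ← map_mul, ← Units.val_mul, div_mul_cancel]
  rw [h4, h5] at h6
  rw [h5] at h3
  rw [eq_div_iff h3]
  exact h6

end Ev

section Radius

/-- a radius smaller than all the distances -/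
theorem exists_radius {n : ℕ} {r : Fin n → ℕ} (β : ∀ k, Fin (r k + 1) → ℂ)
    (hβ : ∀ k, Function.Injective (β k)) :
    ∃ ρ : ℝ, 0 < ρ ∧ ∀ k i j, i ≠ j → ρ < ‖β k i - β k j‖ := by
  have h : ∀ k i j, ∀ᶠ ρ in nhdsWithin (0 : ℝ) (Set.Ioi 0), i ≠ j → ρ < ‖β k i - β k j‖ := by
    intro k i j
    by_cases hij : i = j
    · exact Filter.Eventually.of_forall fun ρ h => absurd hij h
    · have h1 : 0 < ‖β k i - β k j‖ := norm_pos_iff.2 (sub_ne_zero.2 fun e => hij (hβ k e))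
      have h2 : ∀ᶠ ρ in nhds (0 : ℝ), ρ < ‖β k i - β k j‖ := eventually_lt_nhds h1
      filter_upwards [nhdsWithin_le_nhds h2] with ρ hρ _ using hρ
  have h1 := Filter.eventually_all.2 fun k => Filter.eventually_all.2 fun i =>
    Filter.eventually_all.2 fun j => h k i j
  obtain ⟨ρ, hρ1, hρ2⟩ := (h1.and self_mem_nhdsWithin).exists
  exact ⟨ρ, hρ2, fun k i j hij => hρ1 k i j hij⟩

open Pool.Agent.TH826.MK in
theorem norm_circ_sub_ge {R : ℝ} (hR : 0 < R) (b : ℂ) (s : ℝ) : |R - ‖b‖| ≤ ‖circ R s - b‖ := by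
  have h := abs_norm_sub_norm_le (circ R s) b
  rwa [norm_circ hR.le] at h

end Radius

end Pool.Agent.TH826.MH
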