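import Pool.Agent.TH826.MH.Tori
set_option autoImplicit false

/-!
The regulators of the symbols on the tori, for large `λ`.
-/

namespace Pool.Agent.TH826.MH

open Pool.Agent.TH826.MK

/-- the exponent of `x - α_t` in `(x - α_i) / (x - α_{i+1})` -/
noncomputable def wt {n : ℕ} (t i : Fin n) : ℝ :=
  (if i.castSucc = t.castSucc then 1 else 0) - (if i.succ = t.castSucc then 1 else 0)

theorem abs_wt_le {n : ℕ} (t i : Fin n) : |wt t i| ≤ 1 := by
  unfold wt
  split_ifs <;> norm_num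

section val

variable {d : ℕ} {r : Fin (d + 1) → ℕ}

/-- the differences of the roots with the centre of the circle -/
noncomputable def bb (β : ∀ k, Fin (r k + 1) → ℂ) (t : ∀ k, Fin (r k)) (k : Fin d)
    (i : Fin (r k.succ + 1)) : ℂ := β k.succ i - β k.succ (t k.succ).castSucc

/-- the entries over the circles -/
noncomputable def VV (β : ∀ k, Fin (r k + 1) → ℂ) (t : ∀ k, Fin (r k)) (ρ : ℝ)
    (i : ∀ k, Fin (r k)) (k : Fin d) (s : ℝ) : ℂ :=
  (circ ρ s - bb β t k (i k.succ).castSucc) / (circ ρ s - bb β t k (i k.succ).succ)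

/-- the product of the factors over the circles -/
noncomputable def FF (β : ∀ k, Fin (r k + 1) → ℂ) (t : ∀ k, Fin (r k)) (ρ : ℝ)
    (θ : Fin d → ℝ) : ℂ := ∏ k, ∏ i, (circ ρ (θ k) - bb β t k i)

variable {β : ∀ k, Fin (r k + 1) → ℂ} {t : ∀ k, Fin (r k)} {ρ : ℝ}

theorem norm_bb_ne (hρ : 0 < ρ) (hsep : ∀ k i j, i ≠ j → ρ < ‖β k i - β k j‖) (k : Fin d)
    (i : Fin (r k.succ + 1)) : ‖bb β t k i‖ ≠ ρ := by
  unfold bb
  by_cases h : i = (t k.succ).castSucc
  · rw [h, sub_self, norm_zero]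
    exact hρ.ne
  · exact (hsep _ _ _ h).ne'

theorem wd_bb (hρ : 0 < ρ) (hsep : ∀ k i j, i ≠ j → ρ < ‖β k i - β k j‖) (k : Fin d)
    (i : Fin (r k.succ + 1)) :
    wd ρ (bb β t k i) = if i = (t k.succ).castSucc then 1 else 0 := by
  unfold bb wd
  by_cases h : i = (t k.succ).castSucc
  · rw [if_pos h, h, sub_self, norm_zero, if_pos hρ]
  · rw [if_neg h, if_neg (not_lt.2 (hsep _ _ _ h).le)]

theorem one_bb (hρ : 0 < ρ) (hsep : ∀ k i j, i ≠ j → ρ < ‖β k i - β k j‖) (k : Fin d)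
    (i : Fin (r k.succ + 1)) :
    One (fun s => circ ρ s - bb β t k i) (if i = (t k.succ).castSucc then 1 else 0) := by
  rw [← wd_bb (t := t) hρ hsep]
  exact one_lin hρ (norm_bb_ne hρ hsep k i)

theorem one_VV (hρ : 0 < ρ) (hsep : ∀ k i j, i ≠ j → ρ < ‖β k i - β k j‖)
    (i : ∀ k, Fin (r k)) (k : Fin d) : One (VV β t ρ i k) (wt (t k.succ) (i k.succ)) :=
  (one_bb hρ hsep k _).div (one_bb hρ hsep k _)

theorem good_FF (hρ : 0 < ρ) (hsep : ∀ k i j, i ≠ j → ρ < ‖β k i - β k j‖) :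
    Good (FF β t ρ) :=
  good_prod Finset.univ fun k => good_prod Finset.univ fun i => (one_bb hρ hsep k i).good k

theorem exists_FF_ge (hρ : 0 < ρ) (hsep : ∀ k i j, i ≠ j → ρ < ‖β k i - β k j‖) :
    ∃ c : ℝ, 0 < c ∧ ∀ θ, c ≤ ‖FF β t ρ θ‖ := by
  refine ⟨∏ k : Fin d, ∏ i, |ρ - ‖bb β t k i‖|, ?_, fun θ => ?_⟩
  · refine Finset.prod_pos fun k _ => Finset.prod_pos fun i _ => ?_
    exact abs_pos.2 (sub_ne_zero.2 (norm_bb_ne hρ hsep k i).symm)
  · unfold FF
    rw [norm_prod]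
    refine Finset.prod_le_prod (fun k _ => Finset.prod_nonneg fun i _ => abs_nonneg _)
      fun k _ => ?_
    rw [norm_prod]
    exact Finset.prod_le_prod (fun i _ => abs_nonneg _) fun i _ => norm_circ_sub_ge hρ _ _

end val

section main

theorem exists_torus {K : Type*} [Field K] (σ : K →+* ℂ) {d : ℕ} {r : Fin (d + 1) → ℕ}
    (a : ∀ k, Fin (r k + 1) → K) (ha : ∀ k, Function.Injective (a k)) (t : ∀ k, Fin (r k)) :
    ∃ Λ B : ℝ, ∀ lam : K, Λ ≤ ‖σ lam‖ → ∃ Γ : Torus (CRing lam a) d,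
      (∀ θ x, Γ.e θ (fpol lam a (MvPolynomial.C x)) = σ x) ∧
      ∀ i : ∀ k, Fin (r k), |Γ.reg (symb (ent lam a i)) +
        (2 * Real.pi) ^ d * Real.log ‖σ lam‖ * ∏ k, wt (t k) (i k)| ≤ B := by
  classical
  set β : ∀ k, Fin (r k + 1) → ℂ := fun k i => σ (a k i) with hβ
  have hβi : ∀ k, Function.Injective (β k) := fun k => σ.injective.comp (ha k)
  obtain ⟨ρ, hρ, hsep⟩ := exists_radius β hβi
  obtain ⟨G, g, δ, C, hδ, hG, hg⟩ := exists_branch (β 0) (hβi 0) (t 0).castSucc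
  have hF := good_FF (t := t) hρ hsep
  obtain ⟨c0, hc0, hFc⟩ := exists_FF_ge (t := t) hρ hsep
  have hV := fun i : ∀ k, Fin (r k) => one_VV (t := t) hρ hsep i
  choose B1 hB1 using fun i : ∀ k, Fin (r k) => exists_bound_pairing hF (hV i) δ C hδ
  set P : (∀ k, Fin (r k)) → ℝ := fun i => pairing (Fin.cons (FF β t ρ) (vf (VV β t ρ i)))
    with hP
  refine ⟨1 / (δ * c0) + 1, ∑ i, (|P i| + 2 * |B1 i|), fun lam hlam => ?_⟩
  have hlpos : 0 < 1 / (δ * c0) := by positivity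
  have hln : 0 < ‖σ lam‖ := by linarith
  have hl0 : σ lam ≠ 0 := norm_pos_iff.1 hln
  set l : ℂ := σ lam with hl
  have hw : ∀ θ, ‖(l * FF β t ρ θ)⁻¹‖ < δ := by
    intro θ
    rw [norm_inv, norm_mul]
    have h1 := hFc θ
    have h2 : 1 / (δ * c0) < ‖l‖ := by linarith
    rw [div_lt_iff₀ (by positivity)] at h2
    have h3 : 1 < δ * (‖l‖ * ‖FF β t ρ θ‖) := by
      calc 1 < ‖l‖ * (δ * c0) := h2
        _ = δ * (‖l‖ * c0) := by ring
        _ ≤ δ * (‖l‖ * ‖FF β t ρ θ‖) := by gcongr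
    have h4 : 0 < ‖l‖ * ‖FF β t ρ θ‖ := mul_pos hln (hc0.trans_le h1)
    rw [inv_lt_iff_one_lt_mul₀ h4]
    exact h3
  -- the point
  set X : (Fin d → ℝ) → (Fin (d + 1) → ℂ) := fun θ =>
    Fin.cons (G (l * FF β t ρ θ)⁻¹)
      (fun k => circ ρ (θ k) + β k.succ (t k.succ).castSucc) with hX
  have hX0 : ∀ θ, X θ 0 = G (l * FF β t ρ θ)⁻¹ := fun θ => rfl
  have hXs : ∀ θ (k : Fin d), X θ k.succ = circ ρ (θ k) + β k.succ (t k.succ).castSucc :=
    fun θ k => rfl
  have hXc : ContDiff ℝ 2 X := by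
    refine contDiff_pi.2 fun k => ?_
    refine Fin.cases ?_ (fun k => ?_) k
    · simp only [hX0]
      rw [contDiff_iff_contDiffAt]
      intro θ
      exact (((hG _ (hw θ)).1.contDiffAt (n := 2)).restrict_scalars ℝ).comp θ
        (good_w hF hl0).smooth.contDiffAt
    · simp only [hXs]
      exact ((contDiff_circ ρ).comp (contDiff_apply ℝ ℝ k)).add contDiff_const
  have hcp : ∀ (θ : Fin d → ℝ) (i k : Fin d),
      circ ρ ((θ + Pi.single i 1 : Fin d → ℝ) k) = circ ρ (θ k) := by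
    intro θ i k
    exact congrFun (tpt_add_single (fun _ => ρ) θ i) k
  have hFp : ∀ θ i, FF β t ρ (θ + Pi.single i 1) = FF β t ρ θ := by
    intro θ i
    unfold FF
    simp only [hcp]
  have hXp : ∀ θ i, X (θ + Pi.single i 1) = X θ := by
    intro θ i
    funext k
    refine Fin.cases ?_ (fun k => ?_) k
    · rw [hX0, hX0, hFp]
    · rw [hXs, hXs, hcp]
  have hXx : ∀ θ, l * ∏ k, ∏ i, (X θ k - σ (a k i)) = 1 := by
    intro θ
    rw [Fin.prod_univ_succ]
    have h1 : ∏ i, (X θ 0 - σ (a 0 i)) = (l * FF β t ρ θ)⁻¹ := (hG _ (hw θ)).2.1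
    have h2 : ∏ k : Fin d, ∏ i, (X θ k.succ - σ (a k.succ i)) = FF β t ρ θ := by
      unfold FF bb
      refine Finset.prod_congr rfl fun k _ => Finset.prod_congr rfl fun i _ => ?_
      rw [hXs]
      show circ ρ (θ k) + β k.succ (t k.succ).castSucc - β k.succ i = _
      ring
    rw [h1, h2]
    have h3 := hF.ne_zero θ
    field_simp
  refine ⟨mkT X hXc hXp hXx, fun θ x => ?_, fun i => ?_⟩
  · show evX (hXx θ) (fpol lam a (MvPolynomial.C x)) = σ x
    rw [evX_fpol]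
    simp
  rw [Torus.reg_symb]
  unfold Torus.pair
  have e1 : (fun k => (mkT X hXc hXp hXx).fn (ent lam a i k : CRing lam a)) =
      (Fin.cons (fun θ => (G (l * FF β t ρ θ)⁻¹ - β 0 (i 0).castSucc) /
        (G (l * FF β t ρ θ)⁻¹ - β 0 (i 0).succ)) (vf (VV β t ρ i)) :
        Fin (d + 1) → (Fin d → ℝ) → ℂ) := by
    funext k
    refine Fin.cases ?_ (fun k => ?_) k
    · rw [mkT_ent]
      rfl
    · rw [mkT_ent, Fin.cons_succ]
      funext θ
      unfold vf VV bb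
      rw [hXs]
      show (circ ρ (θ k) + β k.succ (t k.succ).castSucc - β k.succ (i k.succ).castSucc) /
        (circ ρ (θ k) + β k.succ (t k.succ).castSucc - β k.succ (i k.succ).succ) = _
      congr 1 <;> ring
  rw [e1]
  have hv : ∀ k, Good (vf (VV β t ρ i) k) := fun k => (hV i k).good k
  have hgood : ∀ j, Good fun θ => G (l * FF β t ρ θ)⁻¹ - β 0 j := by
    intro j
    have h1 : (fun θ => G (l * FF β t ρ θ)⁻¹ - β 0 j) = fun θ =>
        (if j = (t 0).castSucc then (l * FF β t ρ θ)⁻¹ else 1) * g j (l * FF β t ρ θ)⁻¹ := by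
      funext θ
      exact (hG _ (hw θ)).2.2 j
    rw [h1]
    refine Good.mul ?_ (good_comp hF hl0 hw (hg j))
    by_cases h : j = (t 0).castSucc
    · simp only [h, if_true]
      exact good_w hF hl0
    · simp only [h, if_false]
      exact good_const one_ne_zero
  have hpair : ∀ j, pairing (Fin.cons (fun θ => G (l * FF β t ρ θ)⁻¹ - β 0 j)
      (vf (VV β t ρ i))) = (if j = (t 0).castSucc then 1 else 0) *
        (- ((2 * Real.pi) ^ d * Real.log ‖l‖ * ∏ k : Fin d, wt (t k.succ) (i k.succ)) - P i) +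
      pairing (Fin.cons (fun θ => g j (l * FF β t ρ θ)⁻¹) (vf (VV β t ρ i))) := by
    intro j
    have h1 : (fun θ => G (l * FF β t ρ θ)⁻¹ - β 0 j) = fun θ =>
        (if j = (t 0).castSucc then (l * FF β t ρ θ)⁻¹ else 1) * g j (l * FF β t ρ θ)⁻¹ := by
      funext θ
      exact (hG _ (hw θ)).2.2 j
    rw [h1]
    by_cases h : j = (t 0).castSucc
    · simp only [h, if_true]
      rw [pairing_cons_mul (good_w hF hl0) (good_comp hF hl0 hw (hg _)) hv,
        pairing_w hF hl0 (hV i)]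
      simp only [hP]
      ring
    · simp only [h, if_false, one_mul]
      ring
  rw [pairing_cons_div0 (hgood _) (hgood _) (hV i), hpair, hpair, Fin.prod_univ_succ]
  set p1 := pairing (Fin.cons (fun θ => g (i 0).castSucc (l * FF β t ρ θ)⁻¹)
    (vf (VV β t ρ i))) with hp1
  set p2 := pairing (Fin.cons (fun θ => g (i 0).succ (l * FF β t ρ θ)⁻¹)
    (vf (VV β t ρ i))) with hp2
  have b1 : |p1| ≤ |B1 i| := (hB1 i l _ hl0 hw (hg _)).trans (le_abs_self _)
  have b2 : |p2| ≤ |B1 i| := (hB1 i l _ hl0 hw (hg _)).trans (le_abs_self _)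
  have e2 : ∀ Q : ℝ, ∀ W : ℝ, ((if (i 0).castSucc = (t 0).castSucc then 1 else 0) *
      (-(Q * W) - P i) + p1 - ((if (i 0).succ = (t 0).castSucc then 1 else 0) *
      (-(Q * W) - P i) + p2) + Q * (wt (t 0) (i 0) * W)) =
      - (wt (t 0) (i 0) * P i) + p1 - p2 := by
    intro Q W
    unfold wt
    ring
  rw [e2]
  have b3 : |wt (t 0) (i 0) * P i| ≤ |P i| := by
    rw [abs_mul]
    calc |wt (t 0) (i 0)| * |P i| ≤ 1 * |P i| :=
          mul_le_mul_of_nonneg_right (abs_wt_le _ _) (abs_nonneg _)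
      _ = |P i| := one_mul _
  have b4 : |-(wt (t 0) (i 0) * P i) + p1 - p2| ≤ |P i| + 2 * |B1 i| := by
    rw [abs_le]
    have c1 := abs_le.1 b1
    have c2 := abs_le.1 b2
    have c3 := abs_le.1 b3
    constructor <;> linarith [c1.1, c1.2, c2.1, c2.2, c3.1, c3.2]
  exact b4.trans (Finset.single_le_sum (f := fun i => |P i| + 2 * |B1 i|)
    (fun i _ => by positivity) (Finset.mem_univ i))

end main

end Pool.Agent.TH826.MH
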